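import Pool.Agent.K3h99.WF.Stm

/-!
# Elimination of the coordinates with a linear equation
-/

set_option autoImplicit false

namespace Pool.Agent.K3h71.WF

open MvPolynomial Pool.Agent.K3h99.WF Pool.Agent.R920.WC
open Pool.Agent.H61.Fu (lt_of_ne_single)

variable {N : ℕ}

/-- substitution of weighted homogeneous polynomials of the right degrees -/
theorem hom_aeval {a : Fin N → ℕ} {n : ℕ} {g : MvPolynomial (Fin N) ℂ}
    (hg : IsWeightedHomogeneous a g n) (Q : Fin N → MvPolynomial (Fin N) ℂ)
    (hQ : ∀ i, IsWeightedHomogeneous a (Q i) (a i)) :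
    IsWeightedHomogeneous a (aeval Q g) n := by
  rw [aeval_def, eval₂_eq']
  refine Submodule.sum_mem (weightedHomogeneousSubmodule ℂ a n) fun m hm => ?_
  have h1 : Finsupp.weight a m = n := hg (mem_support_iff.1 hm)
  rw [weight_eq] at h1
  have h2 : IsWeightedHomogeneous a (∏ i, Q i ^ m i) (∑ i, m i * a i) :=
    IsWeightedHomogeneous.prod _ _ _ fun i _ => by
      have := (hQ i).pow (m i)
      rwa [smul_eq_mul] at this
  have h3 := (isWeightedHomogeneous_C a (coeff m g)).mul h2
  rw [zero_add, h1] at h3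
  exact h3

/-- only the variables which occur matter -/
theorem aeval_congr_vars {B : Type*} [CommRing B] [Algebra ℂ B] (g : MvPolynomial (Fin N) ℂ)
    (w w' : Fin N → B) (h : ∀ m ∈ g.support, ∀ i, m i ≠ 0 → w i = w' i) :
    aeval w g = aeval w' g := by
  rw [aeval_def, aeval_def, eval₂_eq', eval₂_eq']
  refine Finset.sum_congr rfl fun m hm => ?_
  congr 1
  refine Finset.prod_congr rfl fun i _ => ?_
  by_cases hi : m i = 0
  · rw [hi, pow_zero, pow_zero]
  · rw [h m hm i hi]

theorem aevC (w : Fin N → ℂ) (g : MvPolynomial (Fin N) ℂ) : aeval w g = eval w g := by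
  rw [aeval_def]
  rfl

theorem aeval_comp {B : Type*} [CommRing B] [Algebra ℂ B] (g : MvPolynomial (Fin N) ℂ)
    (Q : Fin N → MvPolynomial (Fin N) ℂ) (w : Fin N → B) :
    aeval w (aeval Q g) = aeval (fun i => aeval w (Q i)) g := by
  have : ((aeval w : MvPolynomial (Fin N) ℂ →ₐ[ℂ] B).comp (aeval Q)) =
      aeval (fun i => aeval w (Q i)) := by
    ext i
    simp
  rw [← this, AlgHom.comp_apply]

open Classical in
/-- the substitution `x_l ↦ 0` for the coordinates with a linear equation -/
noncomputable def tau (a u : Fin N → ℕ) : Fin N → MvPolynomial (Fin N) ℂ :=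
  fun l => if 1 < a l ∧ u l = 1 then 0 else X l

theorem tau_pos {a u : Fin N → ℕ} {l : Fin N} (h : 1 < a l ∧ u l = 1) : tau a u l = 0 :=
  if_pos h

theorem tau_neg {a u : Fin N → ℕ} {l : Fin N} (h : ¬ (1 < a l ∧ u l = 1)) : tau a u l = X l :=
  if_neg h

theorem tau_hom (a u : Fin N → ℕ) (l : Fin N) : IsWeightedHomogeneous a (tau a u l) (a l) := by
  by_cases h : 1 < a l ∧ u l = 1
  · rw [tau_pos h]
    exact isWeightedHomogeneous_zero ℂ a (a l)
  · rw [tau_neg h]
    exact isWeightedHomogeneous_X ℂ a l

variable {κ : Type} {a : Fin N → ℕ} {d : κ → ℕ} {f : κ → MvPolynomial (Fin N) ℂ}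
  {J : Fin N → κ} {u : Fin N → ℕ}

/-- the expression of the coordinate `l` in terms of the coordinates without linear equation -/
def Good (a : Fin N → ℕ) (u : Fin N → ℕ) (f : κ → MvPolynomial (Fin N) ℂ) (l : Fin N)
    (P : MvPolynomial (Fin N) ℂ) : Prop :=
  IsWeightedHomogeneous a P (a l) ∧ aeval (tau a u) P = P ∧
    (¬ (1 < a l ∧ u l = 1) → P = X l) ∧
    ∀ (B : Type) [CommRing B] [Algebra ℂ B] (w : Fin N → B), (∀ j, aeval w (f j) = 0) →
      aeval w P = w l

theorem exists_P (S : Sys a d f J u) : ∀ l, ∃ P, Good a u f l P := by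
  have key : ∀ n, ∀ l, a l = n → ∃ P, Good a u f l P := by
    intro n
    induction n using Nat.strong_induction_on with
    | _ n ih =>
      intro l hl
      by_cases hL : 1 < a l ∧ u l = 1
      swap
      · refine ⟨X l, isWeightedHomogeneous_X ℂ a l, ?_, fun _ => rfl, ?_⟩
        · rw [aeval_X, tau_neg hL]
        · intro B _ _ w _
          rw [aeval_X]
      · have h3 := S.hu l hL.1
        have h4 := S.hJ l hL.1
        rw [hL.2] at h3 h4
        rw [one_mul] at h3
        -- the polynomials for the smaller weights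
        have hQ : ∀ i, ∃ Q, IsWeightedHomogeneous a Q (a i) ∧ aeval (tau a u) Q = Q ∧
            (a i < a l → Good a u f i Q) := by
          intro i
          by_cases hi : a i < a l
          · obtain ⟨P, hP⟩ := ih (a i) (hl ▸ hi) i rfl
            exact ⟨P, hP.1, hP.2.1, fun _ => hP⟩
          · exact ⟨0, isWeightedHomogeneous_zero ℂ a (a i), map_zero _, fun h => absurd h hi⟩
        choose Q hQ1 hQ2 hQ3 using hQ
        set c := coeff (Finsupp.single l 1) (f (J l)) with hc
        set g := f (J l) - C c * X l with hg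
        have hghom : IsWeightedHomogeneous a g (a l) := by
          have h5 : IsWeightedHomogeneous a (f (J l)) (a l) := by
            rw [h3]
            exact S.hf (J l)
          have h6 : IsWeightedHomogeneous a (C c * X l : MvPolynomial (Fin N) ℂ) (a l) := by
            have := (isWeightedHomogeneous_C a c).mul (isWeightedHomogeneous_X ℂ a l)
            rwa [zero_add] at this
          exact Submodule.sub_mem (weightedHomogeneousSubmodule ℂ a (a l)) h5 h6
        have hgc : coeff (Finsupp.single l 1) g = 0 := by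
          rw [hg, coeff_sub, coeff_C_mul, coeff_X, if_pos rfl, mul_one, hc, sub_self]
        have hsmall : ∀ m ∈ g.support, ∀ i, m i ≠ 0 → a i < a l := by
          intro m hm i hi
          have hne : m ≠ Finsupp.single l 1 := by
            rintro rfl
            exact mem_support_iff.1 hm hgc
          have hw := hghom (mem_support_iff.1 hm)
          have hml : m l < 1 := lt_of_ne_single S.ha hw (one_mul _) hne
          rw [weight_eq] at hw
          have hle : m i * a i ≤ a l := by
            rw [← hw]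
            exact Finset.single_le_sum (f := fun x => m x * a x)
              (fun x _ => Nat.zero_le _) (Finset.mem_univ i)
          have h8 : 1 * a i ≤ m i * a i := Nat.mul_le_mul_right _ (Nat.one_le_iff_ne_zero.2 hi)
          rcases Nat.lt_or_ge (a i) (a l) with h9 | h9
          · exact h9
          · exfalso
            have h10 : a i = a l := by omega
            have h11 : i ≠ l := by
              rintro rfl
              omega
            have h12 := S.hcop i l h11
            rw [h10] at h12
            have := Nat.coprime_self (a l) |>.1 h12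
            omega
        refine ⟨C (-c⁻¹) * aeval Q g, ?_, ?_, fun h => absurd hL h, ?_⟩
        · have := (isWeightedHomogeneous_C a (-c⁻¹)).mul (hom_aeval hghom Q hQ1)
          rwa [zero_add] at this
        · rw [map_mul, aeval_C, aeval_comp]
          simp only [hQ2]
          rfl
        · intro B _ _ w hw
          rw [map_mul, aeval_C, aeval_comp]
          have h5 : aeval (fun i => aeval w (Q i)) g = aeval w g :=
            aeval_congr_vars g _ _ fun m hm i hi =>
              (hQ3 i (hsmall m hm i hi)).2.2.2 B w hw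
          rw [h5, hg, map_sub, hw, map_mul, aeval_C, aeval_X, zero_sub, mul_neg, ← mul_assoc,
            ← map_mul, neg_mul, inv_mul_cancel₀ h4, map_neg, map_one, neg_mul, one_mul, neg_neg]
  exact fun l => key (a l) l rfl

theorem coeff_eq_eval {a : Fin N → ℕ} (ha : ∀ i, 0 < a i) {g : MvPolynomial (Fin N) ℂ}
    {i : Fin N} {n : ℕ} (hg : IsWeightedHomogeneous a g (n * a i)) :
    aeval (Pi.single i (1 : ℂ) : Fin N → ℂ) g = coeff (Finsupp.single i n) g := by
  classical
  rw [aeval_def, eval₂_eq']
  have h1 : ∀ m ∈ g.support, m ≠ Finsupp.single i n →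
      algebraMap ℂ ℂ (coeff m g) * ∏ k, (Pi.single i (1 : ℂ) : Fin N → ℂ) k ^ m k = 0 := by
    intro m hm hne
    have hw := hg (mem_support_iff.1 hm)
    rw [weight_eq] at hw
    obtain ⟨k, hk, hmk⟩ : ∃ k, k ≠ i ∧ m k ≠ 0 := by
      by_contra hcon
      push Not at hcon
      refine hne ?_
      rw [Finset.sum_eq_single_of_mem i (Finset.mem_univ _)
        (fun k _ hk => by rw [hcon k hk, zero_mul])] at hw
      have h5 : m i = n := Nat.eq_of_mul_eq_mul_right (ha i) hw
      ext k
      by_cases hk : k = i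
      · subst hk
        rw [h5]
        simp
      · rw [hcon k hk, Finsupp.single_eq_of_ne hk]
    rw [Finset.prod_eq_zero (Finset.mem_univ k), mul_zero]
    rw [Pi.single_eq_of_ne hk, zero_pow hmk]
  have h2 : ∏ k, (Pi.single i (1 : ℂ) : Fin N → ℂ) k ^ (Finsupp.single i n) k = 1 := by
    refine Finset.prod_eq_one fun k _ => ?_
    by_cases hk : k = i
    · subst hk
      rw [Pi.single_eq_same, one_pow]
    · rw [Finsupp.single_eq_of_ne hk, pow_zero]
  by_cases hs : Finsupp.single i n ∈ g.support
  · rw [Finset.sum_eq_single_of_mem _ hs h1, h2, mul_one]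
    rfl
  · rw [Finset.sum_eq_zero fun m hm => h1 m hm (fun h => hs (h ▸ hm))]
    exact (notMem_support_iff.1 hs).symm

/-- a weighted homogeneous polynomial vanishes at the `i`-th unit vector if `a i` does not divide
its degree -/
theorem eval_unit_eq_zero {a : Fin N → ℕ} {g : MvPolynomial (Fin N) ℂ} {i : Fin N} {n : ℕ}
    (hg : IsWeightedHomogeneous a g n) (hn : ¬ a i ∣ n) :
    aeval (Pi.single i (1 : ℂ) : Fin N → ℂ) g = 0 := by
  classical
  rw [aeval_def, eval₂_eq']
  refine Finset.sum_eq_zero fun m hm => ?_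
  have hw := hg (mem_support_iff.1 hm)
  rw [weight_eq] at hw
  obtain ⟨k, hk, hmk⟩ : ∃ k, k ≠ i ∧ m k ≠ 0 := by
    by_contra hcon
    push Not at hcon
    rw [Finset.sum_eq_single_of_mem i (Finset.mem_univ _)
      (fun k _ hk => by rw [hcon k hk, zero_mul])] at hw
    exact hn ⟨m i, by rw [← hw, mul_comm]⟩
  rw [Finset.prod_eq_zero (Finset.mem_univ k), mul_zero]
  rw [Pi.single_eq_of_ne hk, zero_pow hmk]

theorem t_Elim : Elim := by
  classical
  intro N κ B _ _ a d e f J u v y S H hv
  choose P hP using exists_P S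
  -- the linear equations have different indices
  have hLJ : ∀ l, (1 < a l ∧ u l = 1) → ∀ i, 1 < a i → J i = J l → i = l := by
    intro l hl i hi hJ
    by_contra hne
    have h1 := S.hu l hl.1
    have h2 := S.hu i hi
    rw [hl.2, one_mul] at h1
    rw [hJ, ← h1] at h2
    have h3 : a i ∣ a l := ⟨u i, by rw [← h2, mul_comm]⟩
    have h4 : a i = 1 := Nat.Coprime.eq_one_of_dvd (S.hcop i l hne) h3
    omega
  set f' : κ → MvPolynomial (Fin N) ℂ := fun j =>
    if h : ∃ l, (1 < a l ∧ u l = 1) ∧ J l = j then X h.choose else aeval P (f j) with hf'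
  have f'L : ∀ l, (1 < a l ∧ u l = 1) → f' (J l) = X l := by
    intro l hl
    have h : ∃ l', (1 < a l' ∧ u l' = 1) ∧ J l' = J l := ⟨l, hl, rfl⟩
    have h1 : h.choose = l := hLJ l hl _ h.choose_spec.1.1 h.choose_spec.2
    simp only [hf']
    rw [dif_pos h, h1]
  have f'N : ∀ j, (¬ ∃ l, (1 < a l ∧ u l = 1) ∧ J l = j) → f' j = aeval P (f j) := by
    intro j hj
    simp only [hf']
    rw [dif_neg hj]
  -- restriction of points
  have hres : ∀ (B : Type) [CommRing B] [Algebra ℂ B] (w : Fin N → B)
      (g : MvPolynomial (Fin N) ℂ),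
      aeval (fun l => if 1 < a l ∧ u l = 1 then 0 else w l) g = aeval w (aeval (tau a u) g) := by
    intro B _ _ w g
    rw [aeval_comp]
    congr 2
    funext l
    by_cases h : 1 < a l ∧ u l = 1
    · rw [tau_pos h, if_pos h, map_zero]
    · rw [tau_neg h, if_neg h, aeval_X]
  have hresP : ∀ (B : Type) [CommRing B] [Algebra ℂ B] (w : Fin N → B),
      (∀ j, aeval w (f j) = 0) → ∀ l,
      aeval (fun l => if 1 < a l ∧ u l = 1 then 0 else w l) (P l) = w l := by
    intro B _ _ w hw l
    rw [hres, (hP l).2.1]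
    exact (hP l).2.2.2 B w hw
  have hvan : ∀ (B : Type) [CommRing B] [Algebra ℂ B] (w : Fin N → B),
      (∀ j, aeval w (f j) = 0) → ∀ j,
      aeval (fun l => if 1 < a l ∧ u l = 1 then 0 else w l) (f' j) = 0 := by
    intro B _ _ w hw j
    by_cases hj : ∃ l, (1 < a l ∧ u l = 1) ∧ J l = j
    · obtain ⟨l, hl, rfl⟩ := hj
      rw [f'L l hl, aeval_X, if_pos hl]
    · rw [f'N j hj, aeval_comp]
      simp only [hresP B w hw]
      exact hw j
  have hv' : ∀ j, aeval v (f j) = 0 := by
    intro j
    rw [aevC]
    exact H.hfv j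
  refine ⟨f', fun l => if 1 < a l ∧ u l = 1 then 0 else v l,
    fun l => if 1 < a l ∧ u l = 1 then 0 else y l, ⟨S.ha, S.hcop, S.hd, ?_, S.hu, ?_⟩,
    ⟨?_, ?_, ?_⟩, ?_, ?_, ?_⟩
  · intro j
    by_cases hj : ∃ l, (1 < a l ∧ u l = 1) ∧ J l = j
    · obtain ⟨l, hl, rfl⟩ := hj
      have h1 := S.hu l hl.1
      rw [hl.2, one_mul] at h1
      rw [f'L l hl, ← h1]
      exact isWeightedHomogeneous_X ℂ a l
    · rw [f'N j hj]
      exact hom_aeval (S.hf j) P fun i => (hP i).1
  · intro i hi
    by_cases hj : ∃ l, (1 < a l ∧ u l = 1) ∧ J l = J i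
    · obtain ⟨l, hl, hlj⟩ := hj
      have h1 := hLJ l hl i hi hlj.symm
      subst h1
      rw [f'L i hl, hl.2, coeff_X, if_pos rfl]
      exact one_ne_zero
    · rw [f'N _ hj]
      have h1 : IsWeightedHomogeneous a (aeval P (f (J i))) (u i * a i) := by
        rw [S.hu i hi]
        exact hom_aeval (S.hf _) P fun i => (hP i).1
      have h2 : IsWeightedHomogeneous a (f (J i)) (u i * a i) := by
        rw [S.hu i hi]
        exact S.hf _
      rw [← coeff_eq_eval S.ha h1, aeval_comp]
      have h3 : (fun l => aeval (Pi.single i (1 : ℂ) : Fin N → ℂ) (P l)) = Pi.single i 1 := by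
        funext l
        by_cases hl : 1 < a l ∧ u l = 1
        · have hli : l ≠ i := by
            rintro rfl
            exact hj ⟨l, hl, rfl⟩
          rw [Pi.single_eq_of_ne hli]
          refine eval_unit_eq_zero (hP l).1 fun hdvd => ?_
          have h4 : a i = 1 := Nat.Coprime.eq_one_of_dvd (S.hcop i l (Ne.symm hli)) hdvd
          omega
        · rw [(hP l).2.2.1 hl, aeval_X]
      rw [h3, coeff_eq_eval S.ha h2]
      exact S.hJ i hi
  · intro s hs
    have h1 := H.hs _ (hom_aeval hs (tau a u) (tau_hom a u))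
    have h2 := hres B y s
    have h3 := hres ℂ v s
    rw [aevC, aevC] at h3
    rw [h2, h1]
    exact congrArg _ h3.symm
  · intro j
    have h1 := hvan ℂ v hv' j
    rw [aevC] at h1
    exact h1
  · exact hvan B y H.hfy
  · intro h0
    refine hv (funext fun l => ?_)
    have h1 := hresP ℂ v hv' l
    rw [h0] at h1
    rw [← h1]
    have h2 : IsWeightedHomogeneous a (P l) (a l) := (hP l).1
    rw [aeval_def, eval₂_eq']
    refine Finset.sum_eq_zero fun m hm => ?_
    have hw := h2 (mem_support_iff.1 hm)
    rw [weight_eq] at hw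
    obtain ⟨k, hmk⟩ : ∃ k, m k ≠ 0 := by
      by_contra hcon
      push Not at hcon
      rw [Finset.sum_eq_zero fun k _ => by rw [hcon k, zero_mul]] at hw
      have := S.ha l
      omega
    rw [Finset.prod_eq_zero (Finset.mem_univ k), mul_zero]
    rw [Pi.zero_apply, zero_pow hmk]
  · intro l h1 h2
    exact ⟨if_pos ⟨h1, h2⟩, if_pos ⟨h1, h2⟩⟩
  · intro l h
    exact ⟨if_neg h, if_neg h⟩

end Pool.Agent.K3h71.WF
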